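import Pool.Agent.Helper3.DG.Red4

/-!
# Degenerate colourings: constraints on a minimal counterexample
-/

namespace Pool.Agent.Helper3.DG

open Finset Classical

variable {V κ : Type} {G : SimpleGraph V}

/-- `U` is a minimal set which cannot be coloured -/
structure Minl (G : SimpleGraph V) (L : V → Finset κ) (U : Finset V) : Prop where
  five : ∀ v, 5 ≤ (L v).card
  no : ¬ Col G L U
  yes : ∀ X ⊆ U, X.Nonempty → Col G L (U \ X)

theorem Minl.erase {L : V → Finset κ} {U : Finset V} (h : Minl G L U) {v : V} (hv : v ∈ U) :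
    Col G L (U.erase v) := by
  have := h.yes {v} (by simpa using hv) ⟨v, by simp⟩
  rwa [sdiff_singleton_eq_erase] at this

/-- a set of size two containing a given element -/
theorem extract_two {s : Finset V} {a : V} (h : s.card = 2) (ha : a ∈ s) :
    ∃ b, s = {a, b} ∧ b ≠ a := by
  have h1 : (s.erase a).card = 1 := by rw [card_erase_of_mem ha, h]
  obtain ⟨b, hb⟩ := card_eq_one.1 h1
  have hb' : b ∈ s.erase a := by rw [hb]; simp
  refine ⟨b, ?_, (mem_erase.1 hb').1⟩
  rw [← insert_erase ha, hb]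

/-- a set of size three containing a given element -/
theorem extract_three {s : Finset V} {a : V} (h : s.card = 3) (ha : a ∈ s) :
    ∃ b d, s = {a, b, d} ∧ b ≠ a ∧ d ≠ a ∧ b ≠ d := by
  have h1 : (s.erase a).card = 2 := by rw [card_erase_of_mem ha, h]
  obtain ⟨b, d, hbd, he⟩ := card_eq_two.1 h1
  have hb' : b ∈ s.erase a := by rw [he]; simp
  have hd' : d ∈ s.erase a := by rw [he]; simp
  refine ⟨b, d, ?_, (mem_erase.1 hb').1, (mem_erase.1 hd').1, hbd⟩
  rw [← insert_erase ha, he]

/-- a set of size three containing two given elements -/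
theorem extract_three' {s : Finset V} {a b : V} (h : s.card = 3) (ha : a ∈ s) (hb : b ∈ s)
    (hab : a ≠ b) : ∃ d, s = {a, b, d} ∧ d ≠ a ∧ d ≠ b := by
  have h1 : (s.erase a).card = 2 := by rw [card_erase_of_mem ha, h]
  obtain ⟨d, hd, hdb⟩ := extract_two h1 (mem_erase.2 ⟨hab.symm, hb⟩)
  have hd' : d ∈ s.erase a := by rw [hd]; simp
  refine ⟨d, ?_, (mem_erase.1 hd').1, hdb⟩
  rw [← insert_erase ha, hd]

theorem Minl.c_zero {L : V → Finset κ} {U : Finset V} (h : Minl G L U) {v : V} (hv : v ∈ U) :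
    2 ≤ (nb G U v).card := by
  by_contra hh
  exact h.no (red_zero h.five (h.erase hv) (by omega))

theorem Minl.c_one {L : V → Finset κ} {U : Finset V} (h : Minl G L U) {v u : V}
    (hu : u ∈ nb G U v) (hv : v ∈ U) (hd : (nb G U v).card = 2) : 5 ≤ (nb G U u).card := by
  by_contra hh
  obtain ⟨w, hw, -⟩ := extract_two hd hu
  exact h.no (red_one h.five (h.erase hv) hv hw (by omega))

theorem nb_symm {U : Finset V} {v u : V} (hv : v ∈ U) (hu : u ∈ nb G U v) : v ∈ nb G U u :=
  mem_nb.2 ⟨hv, (mem_nb.1 hu).2.symm⟩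

theorem Minl.c_three {L : V → Finset κ} {U : Finset V} (h : Minl G L U) {v a b w : V}
    (hv : v ∈ U) (hd : (nb G U v).card = 3) (ha : a ∈ nb G U v) (hb : b ∈ nb G U v)
    (hab : a ≠ b) (hda : (nb G U a).card = 3) (hdb : (nb G U b).card = 3)
    (hw : w ∈ nb G U a) (hwv : w ≠ v) : 5 ≤ (nb G U w).card := by
  by_contra hh
  obtain ⟨d, hd', hd1, hd2⟩ := extract_three' hd ha hb hab
  obtain ⟨a2, ha2, ha2v, ha2w⟩ := extract_three' hda (nb_symm hv ha) hw hwv.symm
  obtain ⟨b1, b2, hbb, hb1, hb2, hb12⟩ := extract_three hdb (nb_symm hv hb)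
  exact h.no (red_three h.five (h.erase hv) hd' hab hd1.symm hd2.symm ha2 hbb hwv ha2v hb1 hb2
    ha2w.symm hb12 (by omega))

/-- the neighbours of degree two -/
noncomputable def two (G : SimpleGraph V) (U : Finset V) (u : V) : Finset V :=
  (nb G U u).filter (fun v => (nb G U v).card = 2)

theorem Minl.setup {L : V → Finset κ} {U : Finset V} (h : Minl G L U) {u : V} (hu : u ∈ U)
    (hX : (two G U u).Nonempty) : ∃ (w : V → V) (c : V → κ),
    (∀ v ∈ two G U u, nb G U v = {u, w v}) ∧ (∀ v ∈ two G U u, w v ∉ two G U u) ∧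
    (∀ v ∈ two G U u, w v ≠ u) ∧ (∀ v ∈ U, v ∉ two G U u → c v ∈ L v) ∧
    Good G (U \ two G U u) c := by
  have : Nonempty V := ⟨u⟩
  have h1 : ∀ v ∈ two G U u, ∃ w, nb G U v = {u, w} ∧ w ≠ u := by
    intro v hv
    rw [two, mem_filter] at hv
    exact extract_two hv.2 (nb_symm hu hv.1)
  choose! w hw using h1
  obtain ⟨c, hc, hg⟩ := h.yes (two G U u)
    ((filter_subset _ _).trans (filter_subset _ _)) hX
  refine ⟨w, c, fun v hv => (hw v hv).1, ?_, fun v hv => (hw v hv).2,
    fun v hv hvX => hc v (mem_sdiff.2 ⟨hv, hvX⟩), hg⟩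
  intro v hv hwv
  have hv' := hv
  have hwv' := hwv
  rw [two, mem_filter] at hv' hwv'
  have h2 : w v ∈ nb G U v := by rw [(hw v hv).1]; simp
  have h3 := h.c_one h2 (mem_nb.1 hv'.1).1 hv'.2
  omega

theorem two_sub (U : Finset V) (u : V) : two G U u ⊆ nb G U u := filter_subset _ _

theorem Minl.c_five {L : V → Finset κ} {U : Finset V} (h : Minl G L U) {u : V} (hu : u ∈ U)
    (hd : (nb G U u).card = 5) : (two G U u).card ≤ 1 := by
  by_contra hh
  push Not at hh
  obtain ⟨w, c, h1, h2, h3, h4, h5⟩ := h.setup hu (card_pos.1 (by omega))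
  have h6 := card_sdiff_add_card_eq_card (two_sub (G := G) U u)
  by_cases hi : Set.InjOn c (((nb G U u) \ two G U u : Finset V) : Set V)
  · refine h.no (red_two_inj h.five hu (two_sub U u) h1 h2 h3 h4 h5 hi (by omega) ?_)
    have h7 : 5 - ((nb G U u) \ two G U u).card = (two G U u).card := by omega
    rw [h7]
    nlinarith
  · exact h.no (red_two_rep h.five hu (two_sub U u) h1 h2 h4 h5 hi (by omega))

theorem Minl.c_small {L : V → Finset κ} {U : Finset V} (h : Minl G L U) {u : V} (hu : u ∈ U)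
    (hm : ((nb G U u) \ two G U u).card ≤ 1) (hk : 1 ≤ (two G U u).card) :
    16 ≤ (two G U u).card := by
  by_contra hh
  push Not at hh
  obtain ⟨w, c, h1, h2, h3, h4, h5⟩ := h.setup hu (card_pos.1 (by omega))
  have hi : Set.InjOn c (((nb G U u) \ two G U u : Finset V) : Set V) :=
    fun x hx y hy _ => card_le_one.1 hm x hx y hy
  refine h.no (red_two_inj h.five hu (two_sub U u) h1 h2 h3 h4 h5 hi (by omega) ?_)
  have h7 : 4 ≤ 5 - ((nb G U u) \ two G U u).card := by omega
  nlinarith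

theorem Minl.c_two {L : V → Finset κ} {U : Finset V} (h : Minl G L U) {u : V} (hu : u ∈ U)
    (hm : ((nb G U u) \ two G U u).card = 2) (hk : 1 ≤ (two G U u).card)
    (hk5 : (two G U u).card ≤ 5) {p : V} (hp : p ∈ (nb G U u) \ two G U u) :
    (nb G U p).card ≠ 3 := by
  intro hp3
  obtain ⟨w, c, h1, h2, h3, h4, h5⟩ := h.setup hu (card_pos.1 (by omega))
  obtain ⟨q, hq, hqp⟩ := extract_two hm hp
  have hpu : u ∈ nb G U p := nb_symm hu (mem_sdiff.1 hp).1
  obtain ⟨p1, p2, hpp, -, -, -⟩ := extract_three hp3 hpu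
  by_cases hpq : c p = c q
  · exact h.no (red_two_three h.five hu (two_sub U u) h1 h2 h3 h4 h5 hq hpp.le hk5 hpq)
  · have hi : Set.InjOn c (((nb G U u) \ two G U u : Finset V) : Set V) := by
      rw [hq]
      intro x hx y hy hxy
      simp only [coe_insert, coe_singleton, Set.mem_insert_iff, Set.mem_singleton_iff] at hx hy
      rcases hx with rfl | rfl <;> rcases hy with rfl | rfl
      · rfl
      · exact absurd hxy hpq
      · exact absurd hxy.symm hpq
      · rfl
    refine h.no (red_two_inj h.five hu (two_sub U u) h1 h2 h3 h4 h5 hi (by omega) ?_)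
    rw [hm]
    omega

end Pool.Agent.Helper3.DG
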