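import Mathlib

/-!
# Degenerate colourings: basic lemmas
-/

namespace Pool.Agent.Helper3.DG

open Finset Classical

variable {V κ : Type} (G : SimpleGraph V)

/-- neighbours of `v` inside `T` -/
noncomputable def nb (T : Finset V) (v : V) : Finset V := T.filter (fun w => G.Adj v w)

/-- a bad pair: all vertices of `T` have colours in `S` and at least `|S|` neighbours in `T` -/
structure Bad (T : Finset V) (S : Finset κ) (c : V → κ) : Prop where
  ne : T.Nonempty
  sne : S.Nonempty
  col : ∀ v ∈ T, c v ∈ S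
  deg : ∀ v ∈ T, S.card ≤ (nb G T v).card

/-- a colouring which is good on `U` -/
def Good (U : Finset V) (c : V → κ) : Prop := ∀ S T, T ⊆ U → ¬ Bad G T S c

variable {G}

theorem mem_nb {T : Finset V} {v w : V} : w ∈ nb G T v ↔ w ∈ T ∧ G.Adj v w := by
  simp [nb]

theorem nb_mono {T U : Finset V} (h : T ⊆ U) (v : V) : nb G T v ⊆ nb G U v := by
  intro w hw
  rw [mem_nb] at hw ⊢
  exact ⟨h hw.1, hw.2⟩

theorem Good.mono {U U' : Finset V} {c : V → κ} (h : Good G U c) (hU : U' ⊆ U) : Good G U' c :=
  fun S T hT => h S T (hT.trans hU)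

theorem Bad.congr {T : Finset V} {S : Finset κ} {c c' : V → κ} (h : Bad G T S c)
    (hc : ∀ v ∈ T, c v = c' v) : Bad G T S c' :=
  ⟨h.ne, h.sne, fun v hv => hc v hv ▸ h.col v hv, h.deg⟩

theorem Good.congr {U : Finset V} {c c' : V → κ} (h : Good G U c)
    (hc : ∀ v ∈ U, c v = c' v) : Good G U c' :=
  fun S T hT hB => h S T hT (hB.congr fun v hv => (hc v (hT hv)).symm)

theorem Good.proper {U : Finset V} {c : V → κ} (h : Good G U c) {v w : V} (hv : v ∈ U)
    (hw : w ∈ U) (hvw : G.Adj v w) : c v ≠ c w := by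
  intro he
  have hsub : ({v, w} : Finset V) ⊆ U := by
    intro x hx
    simp only [mem_insert, mem_singleton] at hx
    rcases hx with rfl | rfl <;> assumption
  refine h {c v} {v, w} hsub ⟨⟨v, by simp⟩, ⟨c v, by simp⟩, ?_, ?_⟩
  · intro x hx
    simp only [mem_insert, mem_singleton] at hx
    rcases hx with rfl | rfl
    · simp
    · simp [he]
  · intro x hx
    simp only [mem_insert, mem_singleton] at hx
    rw [card_singleton, Nat.succ_le_iff, card_pos]
    rcases hx with rfl | rfl
    · exact ⟨w, mem_nb.2 ⟨by simp, hvw⟩⟩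
    · exact ⟨v, mem_nb.2 ⟨by simp, hvw.symm⟩⟩

/-- a bad set meets the set of recoloured vertices -/
theorem Good.hit {U X : Finset V} {c c' : V → κ} (h : Good G (U \ X) c)
    (hc : ∀ v ∈ U, v ∉ X → c' v = c v) {T : Finset V} {S : Finset κ} (hT : T ⊆ U)
    (hB : Bad G T S c') : ∃ x ∈ T, x ∈ X := by
  by_contra hx
  push Not at hx
  have hT' : T ⊆ U \ X := fun v hv => mem_sdiff.2 ⟨hT hv, hx v hv⟩
  exact h S T hT' (hB.congr fun v hv => hc v (hT hv) (hx v hv))

theorem Good.hit1 {U : Finset V} {v : V} {c c' : V → κ} (h : Good G (U.erase v) c)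
    (hc : ∀ w ∈ U, w ≠ v → c' w = c w) {T : Finset V} {S : Finset κ} (hT : T ⊆ U)
    (hB : Bad G T S c') : v ∈ T := by
  have h' : Good G (U \ {v}) c := by rwa [sdiff_singleton_eq_erase]
  obtain ⟨x, hx, hxv⟩ := h'.hit (c' := c') (fun w hw hwv => hc w hw (by simpa using hwv)) hT hB
  rw [mem_singleton] at hxv
  exact hxv ▸ hx

/-- the vertices whose neighbours have distinct colours are in no bad set -/
theorem Bad.not_rainbow {U T : Finset V} {S : Finset κ} {c : V → κ} (hB : Bad G T S c)
    (hT : T ⊆ U) {v : V} (hv : v ∈ T) (hp : ∀ w ∈ nb G U v, c w ≠ c v)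
    (hi : Set.InjOn c (nb G U v : Set V)) : False := by
  have h1 := hB.deg v hv
  have h2 : (nb G T v).card ≤ (S.erase (c v)).card := by
    refine card_le_card_of_injOn c ?_ ?_
    · intro w hw
      have hw' : w ∈ nb G T v := hw
      rw [mem_coe, mem_erase]
      exact ⟨hp w (nb_mono hT v hw'), hB.col w (mem_nb.1 hw').1⟩
    · exact hi.mono (fun w hw => nb_mono hT v hw)
  rw [card_erase_of_mem (hB.col v hv)] at h2
  have := card_pos.2 hB.sne
  omega

/-- rainbow update -/
theorem Good.update_rainbow {U : Finset V} {c : V → κ} {v : V} (h : Good G (U.erase v) c)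
    {x : κ} (hx : ∀ w ∈ nb G U v, c w ≠ x) (hi : Set.InjOn c (nb G U v : Set V)) :
    Good G U (Function.update c v x) := by
  intro S T hT hB
  have hv : v ∈ T := h.hit1 (c' := Function.update c v x)
    (fun w _ hw => Function.update_of_ne hw _ _) hT hB
  have hne : ∀ w ∈ nb G U v, w ≠ v := by
    rintro w hw rfl
    exact G.loopless.irrefl _ (mem_nb.1 hw).2
  refine hB.not_rainbow hT hv ?_ ?_
  · intro w hw
    rw [Function.update_of_ne (hne w hw), Function.update_self]
    exact hx w hw
  · intro a ha b hb hab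
    rw [Function.update_of_ne (hne a ha), Function.update_of_ne (hne b hb)] at hab
    exact hi ha hb hab

/-- recolouring a rainbow vertex -/
theorem Good.recolour {U : Finset V} {c : V → κ} {v : V} (h : Good G U c)
    {x : κ} (hx : ∀ w ∈ nb G U v, c w ≠ x) (hi : Set.InjOn c (nb G U v : Set V)) :
    Good G U (Function.update c v x) :=
  (h.mono (erase_subset _ _)).update_rainbow hx hi

/-- size one sets of colours are never bad for a properly coloured vertex -/
theorem Bad.one_lt {U T : Finset V} {S : Finset κ} {c : V → κ} (hB : Bad G T S c)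
    (hT : T ⊆ U) {v : V} (hv : v ∈ T) (hp : ∀ w ∈ nb G U v, c w ≠ c v) : 1 < S.card := by
  by_contra h
  have h1 : S.card = 1 := by
    have := card_pos.2 hB.sne
    omega
  obtain ⟨s, hs⟩ := card_eq_one.1 h1
  have h2 := hB.deg v hv
  rw [h1] at h2
  obtain ⟨w, hw⟩ := card_pos.1 (Nat.lt_of_lt_of_le Nat.zero_lt_one h2)
  have h3 := hB.col w (mem_nb.1 hw).1
  have h4 := hB.col v hv
  rw [hs, mem_singleton] at h3 h4
  exact hp w (nb_mono hT v hw) (h3.trans h4.symm)

/-- with two colours there is a second neighbour of the other colour -/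
theorem Bad.second {U T : Finset V} {S : Finset κ} {c : V → κ} (hB : Bad G T S c)
    (hT : T ⊆ U) {v : V} (hv : v ∈ T) (hp : ∀ w ∈ nb G U v, c w ≠ c v) (hS : S.card = 2)
    {y : κ} (hy : y ∈ S) (hyv : y ≠ c v) (v0 : V) :
    ∃ w ∈ nb G U v, w ∈ T ∧ w ≠ v0 ∧ c w = y := by
  have h1 := hB.deg v hv
  rw [hS] at h1
  have h2 : ∃ w ∈ nb G T v, w ≠ v0 := by
    by_contra hh
    push Not at hh
    have h3 : nb G T v ⊆ {v0} := fun w hw => mem_singleton.2 (hh w hw)
    have := card_le_card h3
    rw [card_singleton] at this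
    omega
  obtain ⟨w, hw, hw0⟩ := h2
  have hwU := nb_mono hT v hw
  refine ⟨w, hwU, (mem_nb.1 hw).1, hw0, ?_⟩
  have h3 := hB.col w (mem_nb.1 hw).1
  have h4 := hB.col v hv
  by_contra hne
  have h5 : ({c v, y, c w} : Finset κ) ⊆ S := by
    intro z hz
    simp only [mem_insert, mem_singleton] at hz
    rcases hz with rfl | rfl | rfl <;> assumption
  have h6 := card_le_card h5
  rw [card_insert_of_notMem, card_insert_of_notMem, card_singleton, hS] at h6
  · omega
  · simp only [mem_singleton]; exact fun h => hne h.symm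
  · simp only [mem_insert, mem_singleton, not_or]
    exact ⟨fun h => hyv h.symm, fun h => hp w hwU h.symm⟩

/-- bad sets at a vertex of degree two -/
theorem Bad.deg_two {U T : Finset V} {S : Finset κ} {c : V → κ} (hB : Bad G T S c)
    (hT : T ⊆ U) {v u w : V} (hv : v ∈ T) (hn : nb G U v ⊆ {u, w})
    (hu : c u ≠ c v) (hw : c w ≠ c v) :
    S.card = 2 ∧ u ∈ T ∧ w ∈ T ∧ c u = c w := by
  have hp : ∀ z ∈ nb G U v, c z ≠ c v := by
    intro z hz
    have := hn hz
    simp only [mem_insert, mem_singleton] at this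
    rcases this with rfl | rfl <;> assumption
  have h1 := hB.one_lt hT hv hp
  have h2 := hB.deg v hv
  have hsub : nb G T v ⊆ {u, w} := (nb_mono hT v).trans hn
  have h3 := card_le_card hsub
  have h4 : ({u, w} : Finset V).card ≤ 2 := card_le_two
  have h5 : S.card = 2 := by omega
  have h6 : nb G T v = {u, w} := eq_of_subset_of_card_le hsub (by omega)
  have hu' : u ∈ nb G T v := by rw [h6]; simp
  have hw' : w ∈ nb G T v := by rw [h6]; simp
  have huT := (mem_nb.1 hu').1
  have hwT := (mem_nb.1 hw').1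
  refine ⟨h5, huT, hwT, ?_⟩
  by_contra hne
  have h7 : ({c v, c u, c w} : Finset κ) ⊆ S := by
    intro z hz
    simp only [mem_insert, mem_singleton] at hz
    rcases hz with rfl | rfl | rfl
    · exact hB.col _ hv
    · exact hB.col _ huT
    · exact hB.col _ hwT
  have h8 := card_le_card h7
  rw [card_insert_of_notMem, card_insert_of_notMem, card_singleton, h5] at h8
  · omega
  · simp only [mem_singleton]; exact hne
  · simp only [mem_insert, mem_singleton, not_or]
    exact ⟨fun h => hu h.symm, fun h => hw h.symm⟩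

/-- bad sets at a vertex of degree three: either two colours and two neighbours of the same
colour, or three colours and all neighbours -/
theorem Bad.deg_three {U T : Finset V} {S : Finset κ} {c : V → κ} (hB : Bad G T S c)
    (hT : T ⊆ U) {v a b d : V} (hv : v ∈ T) (hn : nb G U v ⊆ {a, b, d})
    (ha : c a ≠ c v) (hb : c b ≠ c v) (hd : c d ≠ c v) :
    (S.card = 2 ∧ ((a ∈ T ∧ b ∈ T ∧ c a = c b) ∨ (a ∈ T ∧ d ∈ T ∧ c a = c d) ∨
      (b ∈ T ∧ d ∈ T ∧ c b = c d))) ∨
    (S.card = 3 ∧ a ∈ T ∧ b ∈ T ∧ d ∈ T) := by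
  have hp : ∀ z ∈ nb G U v, c z ≠ c v := by
    intro z hz
    have := hn hz
    simp only [mem_insert, mem_singleton] at this
    rcases this with rfl | rfl | rfl <;> assumption
  have h1 := hB.one_lt hT hv hp
  have h2 := hB.deg v hv
  have hsub : nb G T v ⊆ {a, b, d} := (nb_mono hT v).trans hn
  have h3 := card_le_card hsub
  have h4 : ({a, b, d} : Finset V).card ≤ 3 := card_le_three
  have key : S.card = 2 → ∀ z ∈ nb G T v, ∀ z' ∈ nb G T v, c z = c z' := by
    intro h5 z hz z' hz'
    by_contra hne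
    have h7 : ({c v, c z, c z'} : Finset κ) ⊆ S := by
      intro q hq
      simp only [mem_insert, mem_singleton] at hq
      rcases hq with rfl | rfl | rfl
      · exact hB.col _ hv
      · exact hB.col _ (mem_nb.1 hz).1
      · exact hB.col _ (mem_nb.1 hz').1
    have h8 := card_le_card h7
    rw [card_insert_of_notMem, card_insert_of_notMem, card_singleton, h5] at h8
    · omega
    · simp only [mem_singleton]; exact hne
    · simp only [mem_insert, mem_singleton, not_or]
      exact ⟨fun h => hp z (nb_mono hT v hz) h.symm, fun h => hp z' (nb_mono hT v hz') h.symm⟩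
  have h5 : S.card = 2 ∨ S.card = 3 := by omega
  rcases h5 with h5 | h5
  · left
    refine ⟨h5, ?_⟩
    rw [h5] at h2
    obtain ⟨z, hz, z', hz', hzz⟩ := one_lt_card.1 h2
    have hc := key h5 z hz z' hz'
    have hzT := (mem_nb.1 hz).1
    have hzT' := (mem_nb.1 hz').1
    have hm := hsub hz
    have hm' := hsub hz'
    simp only [mem_insert, mem_singleton] at hm hm'
    rcases hm with rfl | rfl | rfl <;> rcases hm' with rfl | rfl | rfl
    · exact absurd rfl hzz
    · exact Or.inl ⟨hzT, hzT', hc⟩
    · exact Or.inr (Or.inl ⟨hzT, hzT', hc⟩)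
    · exact Or.inl ⟨hzT', hzT, hc.symm⟩
    · exact absurd rfl hzz
    · exact Or.inr (Or.inr ⟨hzT, hzT', hc⟩)
    · exact Or.inr (Or.inl ⟨hzT', hzT, hc.symm⟩)
    · exact Or.inr (Or.inr ⟨hzT', hzT, hc.symm⟩)
    · exact absurd rfl hzz
  · right
    have h6 : nb G T v = {a, b, d} := eq_of_subset_of_card_le hsub (by omega)
    have ha' : a ∈ nb G T v := by rw [h6]; simp
    have hb' : b ∈ nb G T v := by rw [h6]; simp
    have hd' : d ∈ nb G T v := by rw [h6]; simp
    exact ⟨h5, (mem_nb.1 ha').1, (mem_nb.1 hb').1, (mem_nb.1 hd').1⟩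

/-- a set of three colours contained in a set of size three is everything -/
theorem three_eq {S : Finset κ} (h : S.card = 3) {x y z q : κ} (hx : x ∈ S) (hy : y ∈ S)
    (hz : z ∈ S) (hxy : x ≠ y) (hxz : x ≠ z) (hyz : y ≠ z) (hq : q ∈ S) :
    q = x ∨ q = y ∨ q = z := by
  have h7 : ({x, y, z} : Finset κ) ⊆ S := by
    intro q hq
    simp only [mem_insert, mem_singleton] at hq
    rcases hq with rfl | rfl | rfl <;> assumption
  have h8 : ({x, y, z} : Finset κ).card = 3 := by
    rw [card_insert_of_notMem, card_insert_of_notMem, card_singleton]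
    · simp only [mem_singleton]; exact hyz
    · simp only [mem_insert, mem_singleton, not_or]; exact ⟨hxy, hxz⟩
  have h9 := eq_of_subset_of_card_le h7 (by omega)
  rw [← h9] at hq
  simpa using hq

/-- choose an element of a list outside a smaller set -/
theorem exists_not {A B : Finset κ} (h : B.card < A.card) : ∃ x ∈ A, x ∉ B := by
  by_contra hh
  push Not at hh
  have := card_le_card (show A ⊆ B from hh)
  omega

end Pool.Agent.Helper3.DG
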