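import Pool.Agent.Helper3.DG.Cons

/-!
# Degenerate colourings: discharging
-/

namespace Pool.Agent.Helper3.DG

open Finset Classical

variable {V κ : Type} {G : SimpleGraph V}

/-- the degree inside `U` -/
noncomputable def dg (G : SimpleGraph V) (U : Finset V) (v : V) : ℕ := (nb G U v).card

/-- the neighbours of degree three -/
noncomputable def thr (G : SimpleGraph V) (U : Finset V) (v : V) : Finset V :=
  (nb G U v).filter (fun w => dg G U w = 3)

/-- the charge sent from `v` to `w` -/
noncomputable def phi (G : SimpleGraph V) (U : Finset V) (v w : V) : ℕ :=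
  if 5 ≤ dg G U v then
    (if dg G U w = 2 then 12 else if dg G U w = 3 then
      (if 1 ≤ (thr G U w).card then 4 else 2) else 0)
  else if dg G U v = 4 then (if dg G U w = 3 then 3 else 0)
  else if dg G U v = 3 then (if dg G U w = 3 ∧ 2 ≤ (thr G U w).card then 2 else 0)
  else 0

theorem phi_five {U : Finset V} {v w : V} (hv : 5 ≤ dg G U v) (hw : dg G U w = 2) :
    phi G U v w = 12 := by
  simp [phi, hv, hw]

theorem phi_five_three {U : Finset V} {v w : V} (hv : 5 ≤ dg G U v) (hw : dg G U w = 3) :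
    2 ≤ phi G U v w := by
  simp only [phi, hv, hw, if_true]
  split_ifs <;> omega

theorem phi_five_three' {U : Finset V} {v w : V} (hv : 5 ≤ dg G U v) (hw : dg G U w = 3)
    (h : 1 ≤ (thr G U w).card) : phi G U v w = 4 := by
  simp [phi, hv, hw, h]

theorem phi_five_not_two {U : Finset V} {v w : V} (hw : dg G U w ≠ 2) :
    phi G U v w ≤ 4 := by
  simp only [phi]
  split_ifs <;> omega

theorem phi_le {U : Finset V} {v w : V} : phi G U v w ≤ 12 := by
  simp only [phi]
  split_ifs <;> omega

theorem phi_not {U : Finset V} {v w : V} (hw : dg G U w ≠ 2) (hw' : dg G U w ≠ 3) :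
    phi G U v w = 0 := by
  simp [phi, hw, hw']

theorem phi_four {U : Finset V} {v w : V} (hv : dg G U v = 4) : phi G U v w ≤ 3 := by
  simp only [phi, hv]
  split_ifs <;> omega

theorem phi_four_three {U : Finset V} {v w : V} (hv : dg G U v = 4) (hw : dg G U w = 3) :
    phi G U v w = 3 := by
  simp [phi, hv, hw]

theorem phi_three {U : Finset V} {v w : V} (hv : dg G U v = 3) :
    phi G U v w = if dg G U w = 3 ∧ 2 ≤ (thr G U w).card then 2 else 0 := by
  simp [phi, hv]

theorem phi_two {U : Finset V} {v w : V} (hv : dg G U v = 2) : phi G U v w = 0 := by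
  simp [phi, hv]

theorem Minl.nbr_three {L : V → Finset κ} {U : Finset V} (h : Minl G L U) {v w : V}
    (hv : v ∈ U) (hd : dg G U v = 3) (hw : w ∈ nb G U v) : 3 ≤ dg G U w := by
  have h1 := h.c_zero (mem_nb.1 hw).1
  by_contra hh
  have h2 : (nb G U w).card = 2 := by unfold dg at hh; omega
  have h3 := h.c_one (nb_symm hv hw) (mem_nb.1 hw).1 h2
  unfold dg at hd
  omega

/-- local inequality at degree two -/
theorem Minl.loc_two {L : V → Finset κ} {U : Finset V} (h : Minl G L U) {v : V}
    (hv : v ∈ U) (hd : dg G U v = 2) :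
    60 + ∑ w ∈ nb G U v, phi G U v w ≤ 18 * dg G U v + ∑ w ∈ nb G U v, phi G U w v := by
  have h1 : ∑ w ∈ nb G U v, phi G U v w = 0 := sum_eq_zero fun w _ => phi_two hd
  have h2 : ∑ w ∈ nb G U v, phi G U w v = ∑ w ∈ nb G U v, 12 :=
    sum_congr rfl fun w hw => phi_five (h.c_one hw hv hd) hd
  have h3 : (nb G U v).card = 2 := hd
  rw [h1, h2, sum_const, h3, hd]
  simp

/-- local inequality at degree four -/
theorem Minl.loc_four {U : Finset V} {v : V} (hd : dg G U v = 4) :
    60 + ∑ w ∈ nb G U v, phi G U v w ≤ 18 * dg G U v + ∑ w ∈ nb G U v, phi G U w v := by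
  have h1 : ∑ w ∈ nb G U v, phi G U v w ≤ (nb G U v).card • 3 :=
    sum_le_card_nsmul _ _ _ fun w _ => phi_four hd
  have h3 : (nb G U v).card = 4 := hd
  rw [h3, smul_eq_mul] at h1
  omega

/-- local inequality at degree at least five -/
theorem Minl.loc_five {L : V → Finset κ} {U : Finset V} (h : Minl G L U) {v : V}
    (hv : v ∈ U) (hd : 5 ≤ dg G U v) :
    60 + ∑ w ∈ nb G U v, phi G U v w ≤ 18 * dg G U v + ∑ w ∈ nb G U v, phi G U w v := by
  have h0 := card_sdiff_add_card_eq_card (two_sub (G := G) U v)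
  have hs : ∑ w ∈ nb G U v, phi G U v w
      = ∑ w ∈ (nb G U v) \ two G U v, phi G U v w + ∑ w ∈ two G U v, phi G U v w :=
    (sum_sdiff (two_sub U v)).symm
  have h1 : ∑ w ∈ two G U v, phi G U v w ≤ (two G U v).card • 12 :=
    sum_le_card_nsmul _ _ _ fun w _ => phi_le
  have hnt : ∀ w ∈ (nb G U v) \ two G U v, dg G U w ≠ 2 := by
    intro w hw h2
    rw [mem_sdiff] at hw
    exact hw.2 (mem_filter.2 ⟨hw.1, h2⟩)
  have h2 : ∑ w ∈ (nb G U v) \ two G U v, phi G U v w ≤ ((nb G U v) \ two G U v).card • 4 :=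
    sum_le_card_nsmul _ _ _ fun w hw => phi_five_not_two (hnt w hw)
  have c5 := h.c_five hv
  have c1 := h.c_small hv
  have hd' : dg G U v = (nb G U v).card := rfl
  rw [smul_eq_mul] at h1 h2
  by_cases hm : ((nb G U v) \ two G U v).card = 2 ∧ (two G U v).card ≤ 5
  · have hk : 1 ≤ (two G U v).card := by omega
    have h3 : ∑ w ∈ (nb G U v) \ two G U v, phi G U v w = 0 :=
      sum_eq_zero fun w hw => phi_not (hnt w hw) (h.c_two hv hm.1 hk hm.2 hw)
    by_cases h5 : (nb G U v).card = 5
    · have := c5 h5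
      omega
    · omega
  · by_cases h5 : (nb G U v).card = 5
    · have := c5 h5
      omega
    · by_cases hm1 : ((nb G U v) \ two G U v).card ≤ 1
      · have := c1 hm1 (by omega)
        omega
      · omega

/-- local inequality at degree three -/
theorem Minl.loc_three {L : V → Finset κ} {U : Finset V} (h : Minl G L U) {v : V}
    (hv : v ∈ U) (hd : dg G U v = 3) :
    60 + ∑ w ∈ nb G U v, phi G U v w ≤ 18 * dg G U v + ∑ w ∈ nb G U v, phi G U w v := by
  have hn : (nb G U v).card = 3 := hd
  have hsub : thr G U v ⊆ nb G U v := filter_subset _ _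
  have h3 : ∀ w ∈ nb G U v, 3 ≤ dg G U w := fun w hw => h.nbr_three hv hd hw
  have h4 : ∀ w ∈ nb G U v, w ∉ thr G U v → 4 ≤ dg G U w := by
    intro w hw hw'
    have h5 := h3 w hw
    have h6 : dg G U w ≠ 3 := fun h7 => hw' (mem_filter.2 ⟨hw, h7⟩)
    omega
  rcases Nat.lt_trichotomy (thr G U v).card 1 with ht | ht | ht
  · -- no neighbour of degree three
    have he : thr G U v = ∅ := card_eq_zero.1 (by omega)
    have h5 : ∀ w ∈ nb G U v, 4 ≤ dg G U w := fun w hw => h4 w hw (by rw [he]; simp)
    have h6 : ∑ w ∈ nb G U v, phi G U v w = 0 := sum_eq_zero fun w hw =>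
      phi_not (by have := h5 w hw; omega) (by have := h5 w hw; omega)
    have h7 : (nb G U v).card • 2 ≤ ∑ w ∈ nb G U v, phi G U w v := by
      refine card_nsmul_le_sum _ _ _ fun w hw => ?_
      have h8 := h5 w hw
      rcases Nat.lt_or_ge 4 (dg G U w) with h9 | h9
      · exact phi_five_three h9 hd
      · rw [phi_four_three (by omega) hd]
        omega
    rw [hn, smul_eq_mul] at h7
    omega
  · -- one neighbour of degree three
    obtain ⟨a, ha⟩ := card_eq_one.1 ht
    have haT : a ∈ thr G U v := by rw [ha]; simp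
    have ha' := mem_filter.1 haT
    have h0 := card_sdiff_add_card_eq_card hsub
    have hrest : ((nb G U v) \ thr G U v).card = 2 := by omega
    have s1 : ∑ w ∈ nb G U v, phi G U v w
        = ∑ w ∈ (nb G U v) \ thr G U v, phi G U v w + ∑ w ∈ thr G U v, phi G U v w :=
      (sum_sdiff hsub).symm
    have s2 : ∑ w ∈ nb G U v, phi G U w v
        = ∑ w ∈ (nb G U v) \ thr G U v, phi G U w v + ∑ w ∈ thr G U v, phi G U w v :=
      (sum_sdiff hsub).symm
    have s3 : ∑ w ∈ (nb G U v) \ thr G U v, phi G U v w = 0 := by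
      refine sum_eq_zero fun w hw => ?_
      rw [mem_sdiff] at hw
      have := h4 w hw.1 hw.2
      exact phi_not (by omega) (by omega)
    have s4 : ∑ w ∈ thr G U v, phi G U v w = phi G U v a := by rw [ha, sum_singleton]
    by_cases hp : 2 ≤ (thr G U a).card
    · have s5 : phi G U v a ≤ 2 := by
        rw [phi_three hd]
        split_ifs <;> omega
      have s6 : ((nb G U v) \ thr G U v).card • 4
          ≤ ∑ w ∈ (nb G U v) \ thr G U v, phi G U w v := by
        refine card_nsmul_le_sum _ _ _ fun w hw => ?_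
        rw [mem_sdiff] at hw
        have hva : v ∈ nb G U a := nb_symm hv ha'.1
        obtain ⟨b, hb, hbv⟩ : ∃ b ∈ thr G U a, b ≠ v := by
          by_contra hh
          push Not at hh
          have h8 : thr G U a ⊆ {v} := fun b hb => mem_singleton.2 (hh b hb)
          have h9 := card_le_card h8
          rw [card_singleton] at h9
          omega
        have hb' := mem_filter.1 hb
        have hwa : w ≠ a := fun he => hw.2 (he ▸ haT)
        have h5 : 5 ≤ dg G U w := h.c_three (mem_nb.1 ha'.1).1 ha'.2 hva hb'.1 hbv.symm hd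
          hb'.2 hw.1 hwa
        rw [phi_five_three' h5 hd (by omega)]
      rw [hrest, smul_eq_mul] at s6
      omega
    · have s5 : phi G U v a = 0 := by
        rw [phi_three hd, if_neg (fun hh => hp hh.2)]
      have s6 : ((nb G U v) \ thr G U v).card • 3
          ≤ ∑ w ∈ (nb G U v) \ thr G U v, phi G U w v := by
        refine card_nsmul_le_sum _ _ _ fun w hw => ?_
        rw [mem_sdiff] at hw
        have h8 := h4 w hw.1 hw.2
        rcases Nat.lt_or_ge 4 (dg G U w) with h9 | h9
        · rw [phi_five_three' h9 hd (by omega)]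
          omega
        · rw [phi_four_three (by omega) hd]
      rw [hrest, smul_eq_mul] at s6
      omega
  · -- at least two neighbours of degree three
    have s1 : ∑ w ∈ nb G U v, phi G U v w = 0 := by
      refine sum_eq_zero fun w hw => ?_
      rw [phi_three hd, if_neg]
      rintro ⟨hw3, hw2⟩
      have hwT : w ∈ thr G U v := mem_filter.2 ⟨hw, hw3⟩
      obtain ⟨b, hb, hbw⟩ := exists_mem_ne ht w
      have hb' := mem_filter.1 hb
      obtain ⟨x, hx, hxv⟩ := exists_mem_ne (s := thr G U w) (by omega) v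
      have hx' := mem_filter.1 hx
      have h5 := h.c_three hv hd hw hb'.1 hbw.symm hw3 hb'.2 hx'.1 hxv
      have h6 : (nb G U x).card = 3 := hx'.2
      omega
    have s2 : (nb G U v).card • 2 ≤ ∑ w ∈ nb G U v, phi G U w v := by
      refine card_nsmul_le_sum _ _ _ fun w hw => ?_
      have h8 := h3 w hw
      rcases Nat.lt_or_ge 4 (dg G U w) with h9 | h9
      · exact phi_five_three h9 hd
      · rcases Nat.lt_or_ge 3 (dg G U w) with h10 | h10
        · rw [phi_four_three (by omega) hd]
          omega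
        · rw [phi_three (by omega), if_pos ⟨hd, by omega⟩]
    rw [hn, smul_eq_mul] at s2
    omega

theorem Minl.loc {L : V → Finset κ} {U : Finset V} (h : Minl G L U) {v : V} (hv : v ∈ U) :
    60 + ∑ w ∈ nb G U v, phi G U v w ≤ 18 * dg G U v + ∑ w ∈ nb G U v, phi G U w v := by
  have h2 : 2 ≤ dg G U v := h.c_zero hv
  rcases Nat.lt_or_ge 4 (dg G U v) with h5 | h5
  · exact h.loc_five hv h5
  · have h6 : dg G U v = 2 ∨ dg G U v = 3 ∨ dg G U v = 4 := by omega
    rcases h6 with h6 | h6 | h6
    · exact h.loc_two hv h6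
    · exact h.loc_three hv h6
    · exact Minl.loc_four h6

theorem Minl.dense {L : V → Finset κ} {U : Finset V} (h : Minl G L U) :
    10 * U.card ≤ 3 * ∑ v ∈ U, dg G U v := by
  have h1 : ∑ v ∈ U, (60 + ∑ w ∈ nb G U v, phi G U v w)
      ≤ ∑ v ∈ U, (18 * dg G U v + ∑ w ∈ nb G U v, phi G U w v) :=
    sum_le_sum fun v hv => h.loc hv
  rw [sum_add_distrib, sum_add_distrib, ← mul_sum, sum_const, smul_eq_mul] at h1
  have h2 : ∑ v ∈ U, ∑ w ∈ nb G U v, phi G U w v = ∑ w ∈ U, ∑ v ∈ nb G U w, phi G U w v := by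
    refine sum_comm' fun v w => ?_
    simp only [mem_nb]
    constructor
    · rintro ⟨h3, h4, h5⟩
      exact ⟨⟨h3, h5.symm⟩, h4⟩
    · rintro ⟨⟨h3, h5⟩, h4⟩
      exact ⟨h3, h4, h5.symm⟩
  rw [h2] at h1
  omega

theorem col_empty {L : V → Finset κ} (hL : ∀ v, 5 ≤ (L v).card) : Col G L ∅ := by
  have h1 : ∀ v, ∃ x, x ∈ L v := fun v => card_pos.1 (by have := hL v; omega)
  choose c hc using h1
  refine ⟨c, fun v _ => hc v, ?_⟩
  intro S T hT hB
  obtain ⟨v, hv⟩ := hB.ne
  exact absurd (hT hv) (notMem_empty v)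

theorem col_all {L : V → Finset κ} (hL : ∀ v, 5 ≤ (L v).card) {U : Finset V}
    (hU : ∀ T ⊆ U, T.Nonempty → 3 * ∑ v ∈ T, (nb G T v).card < 10 * T.card) : Col G L U := by
  induction U using Finset.strongInduction with
  | H U ih =>
    by_contra hno
    have hne : U.Nonempty := by
      rw [nonempty_iff_ne_empty]
      rintro rfl
      exact hno (col_empty hL)
    have hm : Minl G L U := ⟨hL, hno, fun X hX hXn => ih (U \ X)
      (sdiff_ssubset hX hXn) (fun T hT => hU T (hT.trans sdiff_subset))⟩
    have h1 := hm.dense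
    have h2 := hU U (Subset.refl _) hne
    unfold dg at h1
    omega

end Pool.Agent.Helper3.DG
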