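import Pool.Agent.Helper3.DG.Core

/-!
# Degenerate colourings: vertices of degree at most two
-/

namespace Pool.Agent.Helper3.DG

open Finset Classical

variable {V κ : Type} {G : SimpleGraph V}

/-- `U` has a good colouring from the lists -/
def Col (G : SimpleGraph V) (L : V → Finset κ) (U : Finset V) : Prop :=
  ∃ c : V → κ, (∀ v ∈ U, c v ∈ L v) ∧ Good G U c

theorem mem_nb_ne {U : Finset V} {v w : V} (h : w ∈ nb G U v) : w ≠ v := by
  rintro rfl
  exact G.loopless.irrefl _ (mem_nb.1 h).2

theorem nb_erase {U : Finset V} {v w : V} : nb G (U.erase w) v = (nb G U v).erase w := by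
  ext x
  simp only [mem_nb, mem_erase]
  tauto

/-- rainbow extension with lists -/
theorem col_rainbow {L : V → Finset κ} {U : Finset V} {v : V} {c : V → κ}
    (hL : ∀ v, 5 ≤ (L v).card) (hc : ∀ w ∈ U.erase v, c w ∈ L w) (h : Good G (U.erase v) c)
    (hi : Set.InjOn c (nb G U v : Set V)) (hd : (nb G U v).card ≤ 4) : Col G L U := by
  obtain ⟨x, hx, hx'⟩ := exists_not (A := L v) (B := (nb G U v).image c)
    (lt_of_le_of_lt card_image_le (by have := hL v; omega))
  refine ⟨Function.update c v x, ?_, h.update_rainbow ?_ hi⟩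
  · intro w hw
    by_cases hwv : w = v
    · subst hwv
      rwa [Function.update_self]
    · rw [Function.update_of_ne hwv]
      exact hc w (mem_erase.2 ⟨hwv, hw⟩)
  · intro w hw he
    exact hx' (mem_image.2 ⟨w, hw, he⟩)

/-- R0 -/
theorem red_zero {L : V → Finset κ} {U : Finset V} {v : V}
    (hL : ∀ v, 5 ≤ (L v).card) (h : Col G L (U.erase v)) (hd : (nb G U v).card ≤ 1) :
    Col G L U := by
  obtain ⟨c, hc, hg⟩ := h
  refine col_rainbow hL hc hg ?_ (by omega)
  intro a ha b hb _
  exact card_le_one.1 hd a ha b hb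

/-- R1 -/
theorem red_one {L : V → Finset κ} {U : Finset V} {v u w : V}
    (hL : ∀ v, 5 ≤ (L v).card) (h : Col G L (U.erase v)) (hv : v ∈ U) (hn : nb G U v = {u, w})
    (hu : (nb G U u).card ≤ 4) : Col G L U := by
  obtain ⟨c, hc, hg⟩ := h
  by_cases he : c u = c w
  swap
  · refine col_rainbow hL hc hg ?_ ?_
    · rw [hn]
      intro a ha b hb hab
      simp only [coe_insert, coe_singleton, Set.mem_insert_iff, Set.mem_singleton_iff] at ha hb
      rcases ha with rfl | rfl <;> rcases hb with rfl | rfl
      · rfl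
      · exact absurd hab he
      · exact absurd hab.symm he
      · rfl
    · rw [hn]; exact card_le_two.trans (by omega)
  have hu' : u ∈ nb G U v := by rw [hn]; simp
  have hw' : w ∈ nb G U v := by rw [hn]; simp
  have huv := mem_nb_ne hu'
  have hwv := mem_nb_ne hw'
  have hvu : v ∈ nb G U u := mem_nb.2 ⟨hv, (mem_nb.1 hu').2.symm⟩
  obtain ⟨y, hy, hy'⟩ := exists_not (A := L v) (B := insert (c u) (((nb G U u).erase v).image c))
    (by
      refine lt_of_le_of_lt (card_insert_le _ _) ?_
      have h1 : (((nb G U u).erase v).image c).card ≤ ((nb G U u).erase v).card := card_image_le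
      rw [card_erase_of_mem hvu] at h1
      have h2 := hL v
      omega)
  simp only [mem_insert, mem_image, not_or, not_exists, not_and] at hy'
  refine ⟨Function.update c v y, ?_, ?_⟩
  · intro z hz
    by_cases hzv : z = v
    · subst hzv
      rwa [Function.update_self]
    · rw [Function.update_of_ne hzv]
      exact hc z (mem_erase.2 ⟨hzv, hz⟩)
  · intro S T hT hB
    have hvT : v ∈ T := hg.hit1 (c' := Function.update c v y)
      (fun w _ hw => Function.update_of_ne hw _ _) hT hB
    obtain ⟨hS, huT, hwT, -⟩ := hB.deg_two hT hvT hn.le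
      (by rw [Function.update_self, Function.update_of_ne huv]; exact fun h => hy'.1 h.symm)
      (by rw [Function.update_self, Function.update_of_ne hwv, ← he]; exact fun h => hy'.1 h.symm)
    have hyS : y ∈ S := by
      have := hB.col v hvT
      rwa [Function.update_self] at this
    have hp : ∀ z ∈ nb G U u, Function.update c v y z ≠ Function.update c v y u := by
      intro z hz
      rw [Function.update_of_ne huv]
      by_cases hzv : z = v
      · subst hzv
        rw [Function.update_self]; exact hy'.1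
      · rw [Function.update_of_ne hzv]
        exact (hg.proper (mem_erase.2 ⟨huv, hT huT⟩) (mem_erase.2 ⟨hzv, (mem_nb.1 hz).1⟩)
          (mem_nb.1 hz).2).symm
    obtain ⟨z, hz, -, hzv, hzy⟩ := hB.second hT huT hp hS hyS
      (by rw [Function.update_of_ne huv]; exact hy'.1) v
    rw [Function.update_of_ne hzv] at hzy
    exact hy'.2 z (mem_erase.2 ⟨hzv, hz⟩) hzy

/-- several vertices of degree two at `u` -/
theorem Good.multi {U X : Finset V} {u : V} (w : V → V) {c : V → κ}
    (hu : u ∈ U) (huX : u ∉ X)
    (hw : ∀ v ∈ X, nb G U v = {u, w v}) (hwX : ∀ v ∈ X, w v ∉ X)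
    (hc : Good G (U \ X) c) (y : V → κ) (hy1 : ∀ v ∈ X, y v ≠ c u)
    (hy2 : ∀ v ∈ X, y v ≠ c (w v))
    (hyF : ∀ v ∈ X, c (w v) = c u → ∀ z ∈ nb G U u, z ∉ X → c z ≠ y v)
    (hinj : ∀ v ∈ X, ∀ v' ∈ X, c (w v) = c u → c (w v') = c u → y v = y v' → v = v') :
    Good G U (fun v => if v ∈ X then y v else c v) := by
  intro S T hT hB
  obtain ⟨v, hvT, hvX⟩ := hc.hit (c' := fun v => if v ∈ X then y v else c v)
    (fun v _ hv => by simp [hv]) hT hB
  have key : ∀ v' ∈ T, v' ∈ X → S.card = 2 ∧ u ∈ T ∧ c (w v') = c u := by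
    intro v' hvT' hvX'
    obtain ⟨h1, h2, h3, h4⟩ := hB.deg_two (u := u) (w := w v') hT hvT' (hw v' hvX').le
      (by simp only [huX, hvX', if_false, if_true]; exact (hy1 v' hvX').symm)
      (by simp only [hwX v' hvX', hvX', if_false, if_true]; exact (hy2 v' hvX').symm)
    simp only [huX, hwX v' hvX', if_false] at h4
    exact ⟨h1, h2, h4.symm⟩
  obtain ⟨hS, huT, hcw⟩ := key v hvT hvX
  have hyS : y v ∈ S := by
    have := hB.col v hvT
    simpa [hvX] using this
  have hp : ∀ z ∈ nb G U u, (if z ∈ X then y z else c z) ≠ (if u ∈ X then y u else c u) := by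
    intro z hz
    simp only [huX, if_false]
    by_cases hzX : z ∈ X
    · simp only [hzX, if_true]
      exact hy1 z hzX
    · simp only [hzX, if_false]
      exact (hc.proper (mem_sdiff.2 ⟨hu, huX⟩) (mem_sdiff.2 ⟨(mem_nb.1 hz).1, hzX⟩)
        (mem_nb.1 hz).2).symm
  obtain ⟨z, hz, hzT, hzv, hzy⟩ := hB.second hT huT hp hS hyS
    (by simp only [huX, if_false]; exact hy1 v hvX) v
  by_cases hzX : z ∈ X
  · simp only [hzX, if_true] at hzy
    exact hzv (hinj z hzX v hvX (key z hzT hzX).2.2 hcw hzy)
  · simp only [hzX, if_false] at hzy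
    exact hyF v hvX hcw z hz hzX hzy

/-- distinct representatives -/
theorem exists_sdr (y0 : V → κ) (F : Finset V) :
    ∀ A : V → Finset κ, (∀ v ∈ F, F.card ≤ (A v).card) →
    ∃ y : V → κ, (∀ v ∈ F, y v ∈ A v) ∧ Set.InjOn y (F : Set V) := by
  induction F using Finset.induction_on with
  | empty =>
    intro A _
    exact ⟨y0, by simp, by simp⟩
  | insert a F ha ih =>
    intro A hA
    rw [card_insert_of_notMem ha] at hA
    obtain ⟨y, hy, hi⟩ := ih A (fun v hv => by
      have := hA v (mem_insert_of_mem hv)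
      omega)
    obtain ⟨x, hx, hx'⟩ := exists_not (A := A a) (B := F.image y)
      (lt_of_le_of_lt card_image_le (by have := hA a (mem_insert_self _ _); omega))
    have hne : ∀ v ∈ F, v ≠ a := fun v hv h => ha (h ▸ hv)
    refine ⟨Function.update y a x, ?_, ?_⟩
    · intro v hv
      rcases mem_insert.1 hv with rfl | hv
      · rwa [Function.update_self]
      · rw [Function.update_of_ne (hne v hv)]
        exact hy v hv
    · intro v hv v' hv' h
      rw [mem_coe, mem_insert] at hv hv'
      rcases hv with rfl | hv <;> rcases hv' with rfl | hv'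
      · rfl
      · rw [Function.update_self, Function.update_of_ne (hne v' hv')] at h
        exact absurd (mem_image.2 ⟨v', hv', h.symm⟩) hx'
      · rw [Function.update_self, Function.update_of_ne (hne v hv)] at h
        exact absurd (mem_image.2 ⟨v, hv, h⟩) hx'
      · rw [Function.update_of_ne (hne v hv), Function.update_of_ne (hne v' hv')] at h
        exact hi hv hv' h

end Pool.Agent.Helper3.DG
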