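import Pool.Agent.Helper3.DG.Red

/-!
# Degenerate colourings: a vertex with many neighbours of degree two
-/

namespace Pool.Agent.Helper3.DG

open Finset Classical

variable {V κ : Type} {G : SimpleGraph V}

theorem col_multi {L : V → Finset κ} {U X : Finset V} {u : V} {w : V → V} {c : V → κ}
    (hL : ∀ v, 5 ≤ (L v).card) (hu : u ∈ U) (hX : X ⊆ nb G U u)
    (hw : ∀ v ∈ X, nb G U v = {u, w v}) (hwX : ∀ v ∈ X, w v ∉ X)
    (hcL : ∀ v ∈ U, v ∉ X → c v ∈ L v) (hc : Good G (U \ X) c)
    (hcard : (X.filter (fun v => c (w v) = c u)).card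
      + (((nb G U u) \ X).image c).card + 1 ≤ 5) : Col G L U := by
  have huX : u ∉ X := fun h => mem_nb_ne (hX h) rfl
  obtain ⟨y1, hy1, hi1⟩ := exists_sdr c (X.filter (fun v => c (w v) = c u))
    (fun v => L v \ insert (c u) (((nb G U u) \ X).image c)) (by
      intro v _
      have h1 := le_card_sdiff (insert (c u) (((nb G U u) \ X).image c)) (L v)
      have h2 : (insert (c u) (((nb G U u) \ X).image c)).card
        ≤ (((nb G U u) \ X).image c).card + 1 := card_insert_le _ _
      have h3 := hL v
      omega)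
  have h2 : ∀ v, ∃ x ∈ L v, x ∉ ({c u, c (w v)} : Finset κ) := fun v =>
    exists_not (lt_of_le_of_lt card_le_two (by have := hL v; omega))
  choose y2 hy2 hy2' using h2
  simp only [mem_insert, mem_singleton, not_or] at hy2'
  simp only [mem_filter, mem_sdiff, mem_insert, mem_image, not_or, not_exists, not_and] at hy1
  let y : V → κ := fun v => if c (w v) = c u then y1 v else y2 v
  refine ⟨fun v => if v ∈ X then y v else c v, ?_, ?_⟩
  · intro v hv
    by_cases hvX : v ∈ X
    · simp only [hvX, if_true]
      by_cases hF : c (w v) = c u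
      · simp only [y, hF, if_true]
        exact (hy1 v ⟨hvX, hF⟩).1
      · simp only [y, hF, if_false]
        exact hy2 v
    · simp only [hvX, if_false]
      exact hcL v hv hvX
  · refine hc.multi w hu huX hw hwX y ?_ ?_ ?_ ?_
    · intro v hvX
      by_cases hF : c (w v) = c u
      · simp only [y, hF, if_true]
        exact (hy1 v ⟨hvX, hF⟩).2.1
      · simp only [y, hF, if_false]
        exact (hy2' v).1
    · intro v hvX
      by_cases hF : c (w v) = c u
      · simp only [y, hF, if_true]
        exact (hy1 v ⟨hvX, hF⟩).2.1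
      · simp only [y, hF, if_false]
        exact (hy2' v).2
    · intro v hvX hF z hz hzX
      simp only [y, hF, if_true]
      exact (hy1 v ⟨hvX, hF⟩).2.2 z ⟨hz, hzX⟩
    · intro v hvX v' hvX' hF hF' he
      simp only [y, hF, hF', if_true] at he
      refine hi1 ?_ ?_ he
      · simp [hvX, hF]
      · simp [hvX', hF']

/-- pigeonhole: among the colours outside `B` one is taken by few of the `w v` -/
theorem exists_few {A B : Finset κ} {X : Finset V} {f : V → κ} {n k : ℕ}
    (hn : n ≤ (A \ B).card) (hX : X.card < n * k) :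
    ∃ x ∈ A, x ∉ B ∧ (X.filter (fun v => f v = x)).card < k := by
  by_contra hh
  push Not at hh
  have h1 : ∑ x ∈ A \ B, (X.filter (fun v => f v = x)).card ≤ X.card := by
    have h2 : ∑ x ∈ A \ B, (X.filter (fun v => f v = x)).card
        = (X.filter (fun v => f v ∈ A \ B)).card := by
      rw [card_eq_sum_card_fiberwise (f := f) (t := A \ B)]
      · refine sum_congr rfl fun x hx => ?_
        congr 1
        ext v
        simp only [mem_filter]
        constructor
        · rintro ⟨h3, rfl⟩
          exact ⟨⟨h3, hx⟩, rfl⟩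
        · rintro ⟨⟨h3, _⟩, h4⟩
          exact ⟨h3, h4⟩
      · intro v hv
        simp only [coe_filter, Set.mem_ofPred_eq] at hv
        exact hv.2
    rw [h2]
    exact card_filter_le _ _
  have h3 : (A \ B).card * k ≤ ∑ x ∈ A \ B, (X.filter (fun v => f v = x)).card := by
    rw [← smul_eq_mul]
    refine card_nsmul_le_sum _ _ _ ?_
    intro x hx
    rw [mem_sdiff] at hx
    exact hh x hx.1 hx.2
  have h4 : n * k ≤ (A \ B).card * k := Nat.mul_le_mul_right _ hn
  omega

/-- R2, distinct colours at `u` -/
theorem red_two_inj {L : V → Finset κ} {U X : Finset V} {u : V} {w : V → V} {c : V → κ}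
    (hL : ∀ v, 5 ≤ (L v).card) (hu : u ∈ U) (hX : X ⊆ nb G U u)
    (hw : ∀ v ∈ X, nb G U v = {u, w v}) (hwX : ∀ v ∈ X, w v ∉ X) (hwu : ∀ v ∈ X, w v ≠ u)
    (hcL : ∀ v ∈ U, v ∉ X → c v ∈ L v) (hc : Good G (U \ X) c)
    (hi : Set.InjOn c (((nb G U u) \ X : Finset V) : Set V))
    (hm : ((nb G U u) \ X).card ≤ 4)
    (hk : X.card < (5 - ((nb G U u) \ X).card) * (5 - ((nb G U u) \ X).card)) :
    Col G L U := by
  have huX : u ∉ X := fun h => mem_nb_ne (hX h) rfl
  set M := (nb G U u) \ X with hM
  have hMc : (M.image c).card ≤ M.card := card_image_le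
  obtain ⟨x, hxL, hxD, hxF⟩ := exists_few (A := L u) (B := M.image c) (X := X)
    (f := fun v => c (w v)) (n := 5 - M.card) (k := 5 - M.card) (by
      have h1 := le_card_sdiff (M.image c) (L u)
      have h2 := hL u
      omega) hk
  have hMu : ∀ z ∈ M, z ≠ u := fun z hz => mem_nb_ne (mem_sdiff.1 hz).1
  have hg : Good G (U \ X) (Function.update c u x) := by
    refine hc.recolour ?_ ?_
    · intro z hz he
      have hz' : z ∈ M := by
        rw [mem_nb, mem_sdiff] at hz
        exact mem_sdiff.2 ⟨mem_nb.2 ⟨hz.1.1, hz.2⟩, hz.1.2⟩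
      exact hxD (mem_image.2 ⟨z, hz', he⟩)
    · refine hi.mono ?_
      intro z hz
      have hz : z ∈ nb G (U \ X) u := hz
      rw [mem_nb, mem_sdiff] at hz
      exact mem_sdiff.2 ⟨mem_nb.2 ⟨hz.1.1, hz.2⟩, hz.1.2⟩
  refine col_multi (c := Function.update c u x) hL hu hX hw hwX ?_ hg ?_
  · intro v hv hvX
    by_cases hvu : v = u
    · subst hvu
      rwa [Function.update_self]
    · rw [Function.update_of_ne hvu]
      exact hcL v hv hvX
  · have h1 : (M.image (Function.update c u x)) = M.image c := by
      refine image_congr fun z hz => ?_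
      exact Function.update_of_ne (hMu z hz) _ _
    have h2 : X.filter (fun v => Function.update c u x (w v) = Function.update c u x u)
        = X.filter (fun v => c (w v) = x) := by
      refine filter_congr fun v hv => ?_
      rw [Function.update_self, Function.update_of_ne (hwu v hv)]
    rw [← hM, h1, h2]
    omega

/-- R2, repeated colour at `u` -/
theorem red_two_rep {L : V → Finset κ} {U X : Finset V} {u : V} {w : V → V} {c : V → κ}
    (hL : ∀ v, 5 ≤ (L v).card) (hu : u ∈ U) (hX : X ⊆ nb G U u)
    (hw : ∀ v ∈ X, nb G U v = {u, w v}) (hwX : ∀ v ∈ X, w v ∉ X)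
    (hcL : ∀ v ∈ U, v ∉ X → c v ∈ L v) (hc : Good G (U \ X) c)
    (hi : ¬ Set.InjOn c (((nb G U u) \ X : Finset V) : Set V))
    (hd : (nb G U u).card ≤ 5) : Col G L U := by
  refine col_multi hL hu hX hw hwX hcL hc ?_
  have h1 : (((nb G U u) \ X).image c).card < ((nb G U u) \ X).card := by
    refine lt_of_le_of_ne card_image_le fun h => hi ?_
    exact card_image_iff.1 h
  have h2 : (X.filter (fun v => c (w v) = c u)).card ≤ X.card := card_filter_le _ _
  have h3 := card_sdiff_add_card_eq_card hX
  omega

/-- R2, two other neighbours, one of them of degree three -/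
theorem red_two_three {L : V → Finset κ} {U X : Finset V} {u p q p1 p2 : V} {w : V → V}
    {c : V → κ} (hL : ∀ v, 5 ≤ (L v).card) (hu : u ∈ U) (hX : X ⊆ nb G U u)
    (hw : ∀ v ∈ X, nb G U v = {u, w v}) (hwX : ∀ v ∈ X, w v ∉ X) (hwu : ∀ v ∈ X, w v ≠ u)
    (hcL : ∀ v ∈ U, v ∉ X → c v ∈ L v) (hc : Good G (U \ X) c)
    (hM : (nb G U u) \ X = {p, q}) (hp : nb G U p ⊆ {u, p1, p2}) (hk : X.card ≤ 5)
    (hpq : c p = c q) : Col G L U := by
  have huX : u ∉ X := fun h => mem_nb_ne (hX h) rfl
  have hpM : p ∈ (nb G U u) \ X := by rw [hM]; simp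
  have hqM : q ∈ (nb G U u) \ X := by rw [hM]; simp
  have hpu : p ≠ u := mem_nb_ne (mem_sdiff.1 hpM).1
  have hqu : q ≠ u := mem_nb_ne (mem_sdiff.1 hqM).1
  obtain ⟨x, hxL, hxD, hxF⟩ := exists_few (A := L u) (B := {c p, c p1, c p2}) (X := X)
    (f := fun v => c (w v)) (n := 2) (k := 4) (by
      have h1 := le_card_sdiff ({c p, c p1, c p2} : Finset κ) (L u)
      have h2 : ({c p, c p1, c p2} : Finset κ).card ≤ 3 := card_le_three
      have h3 := hL u
      omega) (by omega)
  simp only [mem_insert, mem_singleton, not_or] at hxD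
  have hg : Good G (U \ X) (Function.update c u x) := by
    intro S T hT hB
    have huT : u ∈ T := (hc.mono (erase_subset _ _)).hit1 (c' := Function.update c u x)
      (fun w _ hw => Function.update_of_ne hw _ _) hT hB
    have hn : nb G (U \ X) u ⊆ {p, q} := by
      intro z hz
      rw [← hM]
      rw [mem_nb, mem_sdiff] at hz
      exact mem_sdiff.2 ⟨mem_nb.2 ⟨hz.1.1, hz.2⟩, hz.1.2⟩
    obtain ⟨hS, hpT, hqT, -⟩ := hB.deg_two hT huT hn
      (by rw [Function.update_self, Function.update_of_ne hpu]; exact fun h => hxD.1 h.symm)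
      (by rw [Function.update_self, Function.update_of_ne hqu, ← hpq]
          exact fun h => hxD.1 h.symm)
    have hxS : x ∈ S := by
      have := hB.col u huT
      rwa [Function.update_self] at this
    have hpr : ∀ z ∈ nb G (U \ X) p,
        Function.update c u x z ≠ Function.update c u x p := by
      intro z hz
      rw [Function.update_of_ne hpu]
      by_cases hzu : z = u
      · subst hzu
        rw [Function.update_self]; exact hxD.1
      · rw [Function.update_of_ne hzu]
        exact (hc.proper (hT hpT) (mem_nb.1 hz).1 (mem_nb.1 hz).2).symm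
    obtain ⟨z, hz, hzT, hzu, hzx⟩ := hB.second hT hpT hpr hS hxS
      (by rw [Function.update_of_ne hpu]; exact hxD.1) u
    rw [Function.update_of_ne hzu] at hzx
    have hz' := hp (nb_mono sdiff_subset p hz)
    simp only [mem_insert, mem_singleton] at hz'
    rcases hz' with rfl | rfl | rfl
    · exact hzu rfl
    · exact hxD.2.1 hzx.symm
    · exact hxD.2.2 hzx.symm
  refine col_multi (c := Function.update c u x) hL hu hX hw hwX ?_ hg ?_
  · intro v hv hvX
    by_cases hvu : v = u
    · subst hvu
      rwa [Function.update_self]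
    · rw [Function.update_of_ne hvu]
      exact hcL v hv hvX
  · have h1 : (((nb G U u) \ X).image (Function.update c u x)).card ≤ 1 := by
      rw [hM, image_insert, image_singleton, Function.update_of_ne hpu,
        Function.update_of_ne hqu, hpq]
      simp
    have h2 : X.filter (fun v => Function.update c u x (w v) = Function.update c u x u)
        = X.filter (fun v => c (w v) = x) := by
      refine filter_congr fun v hv => ?_
      rw [Function.update_self, Function.update_of_ne (hwu v hv)]
    rw [h2]
    omega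

end Pool.Agent.Helper3.DG
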