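import Pool.Agent.Helper3.DG.Red2

/-!
# Degenerate colourings: a vertex of degree three with two neighbours of degree three
-/

namespace Pool.Agent.Helper3.DG

open Finset Classical

variable {V κ : Type} {G : SimpleGraph V}

theorem lists_update {L : V → Finset κ} {U : Finset V} {v : V} {c c' : V → κ} {y : κ}
    (hcL : ∀ w ∈ U.erase v, c w ∈ L w) (hy : y ∈ L v) (h1 : c' v = y)
    (h2 : ∀ w, w ≠ v → c' w = c w) : ∀ w ∈ U, c' w ∈ L w := by
  intro w hw
  by_cases hwv : w = v
  · subst hwv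
    rwa [h1]
  · rw [h2 w hwv]
    exact hcL w (mem_erase.2 ⟨hwv, hw⟩)

theorem exists_update (c : V → κ) (v : V) (y : κ) :
    ∃ c' : V → κ, c' v = y ∧ ∀ w, w ≠ v → c' w = c w :=
  ⟨Function.update c v y, Function.update_self _ _ _, fun _ hw => Function.update_of_ne hw _ _⟩

/-- a vertex of degree three in a bad set -/
theorem Bad.three_side {U T : Finset V} {S : Finset κ} {c : V → κ} {v b b1 b2 : V}
    (hB : Bad G T S c) (hT : T ⊆ U) (hb : b ∈ T) (hnb : nb G U b = {v, b1, b2})
    (hv : c v ≠ c b) (h1 : c b1 ≠ c b) (h2 : c b2 ≠ c b) (hvS : c v ∈ S)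
    (hv1 : c b1 ≠ c v) (hv2 : c b2 ≠ c v) : S.card = 3 ∧ b1 ∈ T ∧ b2 ∈ T := by
  rcases hB.deg_three hT hb hnb.le hv h1 h2 with ⟨hS, -⟩ | ⟨hS, -, h3, h4⟩
  · exfalso
    have hp : ∀ w ∈ nb G U b, c w ≠ c b := by
      intro w hw
      rw [hnb] at hw
      simp only [mem_insert, mem_singleton] at hw
      rcases hw with rfl | rfl | rfl <;> assumption
    obtain ⟨w, hw, -, hwv, hcw⟩ := hB.second hT hb hp hS hvS hv v
    rw [hnb] at hw
    simp only [mem_insert, mem_singleton] at hw
    rcases hw with rfl | rfl | rfl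
    · exact hwv rfl
    · exact hv1 hcw
    · exact hv2 hcw
  · exact ⟨hS, h3, h4⟩

theorem col_finish {L : V → Finset κ} {U : Finset V} {v a b d b1 b2 : V} {c : V → κ}
    (hL : ∀ v, 5 ≤ (L v).card) (hcL : ∀ w ∈ U.erase v, c w ∈ L w) (hc : Good G (U.erase v) c)
    (hnv : nb G U v = {a, b, d}) (hnb : nb G U b = {v, b1, b2}) (hb1 : b1 ≠ v) (hb2 : b2 ≠ v)
    (hab : c a ≠ c b) (hbd : c b = c d) (hab1 : c a ≠ c b1) : Col G L U := by
  have ha : a ∈ nb G U v := by rw [hnv]; simp
  have hb : b ∈ nb G U v := by rw [hnv]; simp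
  have hd : d ∈ nb G U v := by rw [hnv]; simp
  have hav := mem_nb_ne ha
  have hbv := mem_nb_ne hb
  have hdv := mem_nb_ne hd
  have hb1' : b1 ∈ nb G U b := by rw [hnb]; simp
  have hb2' : b2 ∈ nb G U b := by rw [hnb]; simp
  have hbU : b ∈ U.erase v := mem_erase.2 ⟨hbv, (mem_nb.1 hb).1⟩
  have e1 : c b1 ≠ c b := (hc.proper hbU (mem_erase.2 ⟨hb1, (mem_nb.1 hb1').1⟩)
    (mem_nb.1 hb1').2).symm
  have e2 : c b2 ≠ c b := (hc.proper hbU (mem_erase.2 ⟨hb2, (mem_nb.1 hb2').1⟩)
    (mem_nb.1 hb2').2).symm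
  obtain ⟨y, hy, hy'⟩ := exists_not (A := L v) (B := {c a, c b, c b1, c b2})
    (lt_of_le_of_lt card_le_four (by have := hL v; omega))
  simp only [mem_insert, mem_singleton, not_or] at hy'
  obtain ⟨y1, y2, y3, y4⟩ := hy'
  obtain ⟨c', hcv, hco⟩ := exists_update c v y
  refine ⟨c', lists_update hcL hy hcv hco, ?_⟩
  intro S T hT hB
  have hvT : v ∈ T := hc.hit1 (c' := c') (fun w _ hw => hco w hw) hT hB
  have hyS : c' v ∈ S := hB.col v hvT
  have side : b ∈ T → S.card = 3 ∧ b1 ∈ T ∧ b2 ∈ T := fun hbT =>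
    hB.three_side hT hbT hnb (by rw [hcv, hco b hbv]; exact y2)
      (by rw [hco b1 hb1, hco b hbv]; exact e1) (by rw [hco b2 hb2, hco b hbv]; exact e2) hyS
      (by rw [hcv, hco b1 hb1]; exact fun h => y3 h.symm)
      (by rw [hcv, hco b2 hb2]; exact fun h => y4 h.symm)
  rcases hB.deg_three hT hvT hnv.le (by rw [hcv, hco a hav]; exact fun h => y1 h.symm)
    (by rw [hcv, hco b hbv]; exact fun h => y2 h.symm)
    (by rw [hcv, hco d hdv, ← hbd]; exact fun h => y2 h.symm) with ⟨hS, h⟩ | ⟨hS, haT, hbT, hdT⟩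
  · rcases h with ⟨-, -, h⟩ | ⟨-, -, h⟩ | ⟨hbT, -, -⟩
    · rw [hco a hav, hco b hbv] at h
      exact hab h
    · rw [hco a hav, hco d hdv, ← hbd] at h
      exact hab h
    · have := (side hbT).1
      omega
  · obtain ⟨-, hb1T, -⟩ := side hbT
    have haS := hB.col a haT
    have hbS := hB.col b hbT
    have hb1S := hB.col b1 hb1T
    rw [hco a hav] at haS
    rw [hco b hbv] at hbS
    rw [hco b1 hb1] at hb1S
    rw [hcv] at hyS
    rcases three_eq hS hyS haS hbS y1 y2 hab hb1S with h | h | h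
    · exact y3 h.symm
    · exact hab1 h.symm
    · exact e1 h

/-- injectivity on three neighbours -/
theorem injOn_three {c : V → κ} {a b d : V} (hab : c a ≠ c b) (had : c a ≠ c d)
    (hbd : c b ≠ c d) : Set.InjOn c ((({a, b, d} : Finset V)) : Set V) := by
  intro x hx y hy h
  simp only [coe_insert, coe_singleton, Set.mem_insert_iff, Set.mem_singleton_iff] at hx hy
  rcases hx with rfl | rfl | rfl <;> rcases hy with rfl | rfl | rfl
  · rfl
  · exact absurd h hab
  · exact absurd h had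
  · exact absurd h.symm hab
  · rfl
  · exact absurd h hbd
  · exact absurd h.symm had
  · exact absurd h.symm hbd
  · rfl

theorem col_rainbow_three {L : V → Finset κ} {U : Finset V} {v a b d : V} {c : V → κ}
    (hL : ∀ v, 5 ≤ (L v).card) (hcL : ∀ w ∈ U.erase v, c w ∈ L w) (hc : Good G (U.erase v) c)
    (hnv : nb G U v = {a, b, d}) (hab : c a ≠ c b) (had : c a ≠ c d)
    (hbd : c b ≠ c d) : Col G L U := by
  refine col_rainbow hL hcL hc ?_ ?_
  · rw [hnv]
    exact injOn_three hab had hbd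
  · rw [hnv]
    exact card_le_three.trans (by omega)

/-- the case where `a` can be recoloured freely -/
theorem col_free {L : V → Finset κ} {U : Finset V} {v a b d a1 a2 b1 b2 : V} {c : V → κ}
    (hL : ∀ v, 5 ≤ (L v).card) (hcL : ∀ w ∈ U.erase v, c w ∈ L w) (hc : Good G (U.erase v) c)
    (hnv : nb G U v = {a, b, d}) (hab : a ≠ b) (had : a ≠ d)
    (hna : nb G U a = {v, a1, a2}) (hnb : nb G U b = {v, b1, b2}) (hb1 : b1 ≠ v) (hb2 : b2 ≠ v)
    (ha12 : c a1 ≠ c a2) (hb1a : b1 ≠ a) : Col G L U := by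
  have ha : a ∈ nb G U v := by rw [hnv]; simp
  have hav := mem_nb_ne ha
  have hna' : ∀ w ∈ nb G (U.erase v) a, w = a1 ∨ w = a2 := by
    intro w hw
    rw [nb_erase, hna, mem_erase] at hw
    simp only [mem_insert, mem_singleton] at hw
    tauto
  have hinj : Set.InjOn c (nb G (U.erase v) a : Set V) := by
    intro x hx y hy h
    rcases hna' x hx with rfl | rfl <;> rcases hna' y hy with rfl | rfl
    · rfl
    · exact absurd h ha12
    · exact absurd h.symm ha12
    · rfl
  have step : ∀ q : κ, ∃ z ∈ L a, z ∉ ({c a1, c a2, c b, q} : Finset κ) := fun q =>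
    exists_not (lt_of_le_of_lt card_le_four (by have := hL a; omega))
  have upd : ∀ z ∈ L a, z ≠ c a1 → z ≠ c a2 →
      (∀ w ∈ U.erase v, Function.update c a z w ∈ L w) ∧
      Good G (U.erase v) (Function.update c a z) := by
    intro z hz h1 h2
    refine ⟨?_, hc.recolour ?_ hinj⟩
    · intro w hw
      by_cases hwa : w = a
      · subst hwa
        rwa [Function.update_self]
      · rw [Function.update_of_ne hwa]
        exact hcL w hw
    · intro w hw
      rcases hna' w hw with rfl | rfl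
      · exact h1.symm
      · exact h2.symm
  by_cases hbd : c b = c d
  · obtain ⟨z, hz, hz'⟩ := step (c b1)
    simp only [mem_insert, mem_singleton, not_or] at hz'
    obtain ⟨z1, z2, z3, z4⟩ := hz'
    obtain ⟨u1, u2⟩ := upd z hz z1 z2
    refine col_finish hL u1 u2 hnv hnb hb1 hb2 ?_ ?_ ?_
    · rw [Function.update_self, Function.update_of_ne hab.symm]
      exact z3
    · rw [Function.update_of_ne hab.symm, Function.update_of_ne had.symm]
      exact hbd
    · rw [Function.update_self, Function.update_of_ne hb1a]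
      exact z4
  · obtain ⟨z, hz, hz'⟩ := step (c d)
    simp only [mem_insert, mem_singleton, not_or] at hz'
    obtain ⟨z1, z2, z3, z4⟩ := hz'
    obtain ⟨u1, u2⟩ := upd z hz z1 z2
    refine col_rainbow_three hL u1 u2 hnv ?_ ?_ ?_
    · rw [Function.update_self, Function.update_of_ne hab.symm]
      exact z3
    · rw [Function.update_self, Function.update_of_ne had.symm]
      exact z4
    · rw [Function.update_of_ne hab.symm, Function.update_of_ne had.symm]
      exact hbd

/-- the same, for either labelling of the neighbours of `b` -/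
theorem col_free' {L : V → Finset κ} {U : Finset V} {v a b d a1 a2 b1 b2 : V} {c : V → κ}
    (hL : ∀ v, 5 ≤ (L v).card) (hcL : ∀ w ∈ U.erase v, c w ∈ L w) (hc : Good G (U.erase v) c)
    (hnv : nb G U v = {a, b, d}) (hab : a ≠ b) (had : a ≠ d)
    (hna : nb G U a = {v, a1, a2}) (hnb : nb G U b = {v, b1, b2}) (hb1 : b1 ≠ v) (hb2 : b2 ≠ v)
    (ha12 : c a1 ≠ c a2) (hb12 : b1 ≠ b2) : Col G L U := by
  by_cases h : b1 = a
  · have h2 : b2 ≠ a := fun h' => hb12 (h.trans h'.symm)
    have hnb' : nb G U b = {v, b2, b1} := by rw [hnb, pair_comm b1 b2]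
    exact col_free hL hcL hc hnv hab had hna hnb' hb2 hb1 ha12 h2
  · exact col_free hL hcL hc hnv hab had hna hnb hb1 hb2 ha12 h

end Pool.Agent.Helper3.DG
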