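import Pool.Agent.Helper3.DG.Red3

/-!
# Degenerate colourings: the reduction at a vertex of degree three
-/

namespace Pool.Agent.Helper3.DG

open Finset Classical

variable {V κ : Type} {G : SimpleGraph V}

/-- all of `a, b, d, a1, a2, b1, b2` are in a bad set -/
theorem Bad.all {U T : Finset V} {S : Finset κ} {c : V → κ} {v a b d a1 a2 b1 b2 : V}
    (hB : Bad G T S c) (hT : T ⊆ U) (hvT : v ∈ T) (hnv : nb G U v = {a, b, d})
    (hna : nb G U a = {v, a1, a2}) (hnb : nb G U b = {v, b1, b2})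
    (ha : c a ≠ c v) (hb : c b ≠ c v) (hd : c d ≠ c v)
    (ha1 : c a1 ≠ c v) (ha2 : c a2 ≠ c v) (hb1 : c b1 ≠ c v) (hb2 : c b2 ≠ c v)
    (haa1 : c a1 ≠ c a) (haa2 : c a2 ≠ c a) (hbb1 : c b1 ≠ c b) (hbb2 : c b2 ≠ c b) :
    S.card = 3 ∧ a ∈ T ∧ b ∈ T ∧ d ∈ T ∧ a1 ∈ T ∧ b1 ∈ T := by
  have hvS := hB.col v hvT
  have sa : a ∈ T → S.card = 3 ∧ a1 ∈ T ∧ a2 ∈ T := fun h =>
    hB.three_side hT h hna ha.symm haa1 haa2 hvS ha1 ha2
  have sb : b ∈ T → S.card = 3 ∧ b1 ∈ T ∧ b2 ∈ T := fun h =>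
    hB.three_side hT h hnb hb.symm hbb1 hbb2 hvS hb1 hb2
  rcases hB.deg_three hT hvT hnv.le ha hb hd with ⟨hS, h⟩ | ⟨hS, haT, hbT, hdT⟩
  · exfalso
    rcases h with ⟨h, -, -⟩ | ⟨h, -, -⟩ | ⟨h, -, -⟩
    · have := (sa h).1
      omega
    · have := (sa h).1
      omega
    · have := (sb h).1
      omega
  · exact ⟨hS, haT, hbT, hdT, (sa haT).2.1, (sb hbT).2.1⟩

/-- step 4 -/
theorem col_step_four {L : V → Finset κ} {U : Finset V} {v a b d a1 a2 b1 b2 : V} {c : V → κ}
    (hL : ∀ v, 5 ≤ (L v).card) (hcL : ∀ w ∈ U.erase v, c w ∈ L w) (hc : Good G (U.erase v) c)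
    (hnv : nb G U v = {a, b, d}) (hab : a ≠ b) (had : a ≠ d)
    (hna : nb G U a = {v, a1, a2}) (hnb : nb G U b = {v, b1, b2})
    (hb1 : b1 ≠ v) (hb2 : b2 ≠ v)
    (ha12 : c a1 = c a2) (hb12 : c b1 = c b2) (hbb : b1 ≠ b2) {t : κ} (ht : t ∈ L a)
    (htb : t ≠ c b) (htd : t ≠ c d) (hta1 : t ≠ c a1) (htb1 : t ≠ c b1)
    (hta : ∀ w ∈ nb G U a1, w ≠ v → w ≠ a → c w ≠ t) : Col G L U := by
  have ha : a ∈ nb G U v := by rw [hnv]; simp
  have hb : b ∈ nb G U v := by rw [hnv]; simp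
  have hav := mem_nb_ne ha
  have ha1' : a1 ∈ nb G U a := by rw [hna]; simp
  have ha2' : a2 ∈ nb G U a := by rw [hna]; simp
  have ha1a := mem_nb_ne ha1'
  have ha2a := mem_nb_ne ha2'
  have hna' : nb G (U.erase v) a ⊆ {a1, a2} := by
    intro w hw
    rw [nb_erase, hna, mem_erase] at hw
    simp only [mem_insert, mem_singleton] at hw ⊢
    tauto
  obtain ⟨c', hca, hco⟩ := exists_update c a t
  have hg : Good G (U.erase v) c' := by
    intro S T hT hB
    have haT : a ∈ T := (hc.mono (erase_subset a _)).hit1 (c' := c')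
      (fun w _ hw => hco w hw) hT hB
    obtain ⟨hS, ha1T, -, -⟩ := hB.deg_two hT haT hna'
      (by rw [hca, hco a1 ha1a]; exact hta1.symm)
      (by rw [hca, hco a2 ha2a, ← ha12]; exact hta1.symm)
    have htS := hB.col a haT
    rw [hca] at htS
    have hp : ∀ w ∈ nb G (U.erase v) a1, c' w ≠ c' a1 := by
      intro w hw
      rw [hco a1 ha1a]
      by_cases hwa : w = a
      · subst hwa
        rw [hca]
        exact hta1
      · rw [hco w hwa]
        exact (hc.proper (hT ha1T) (mem_nb.1 hw).1 (mem_nb.1 hw).2).symm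
    obtain ⟨w, hw, hwT, hwa, hcw⟩ := hB.second hT ha1T hp hS htS
      (by rw [hco a1 ha1a]; exact hta1) a
    rw [hco w hwa] at hcw
    exact hta w (nb_mono (erase_subset _ _) _ hw) (mem_erase.1 (mem_nb.1 hw).1).1 hwa hcw
  have hcL' : ∀ w ∈ U.erase v, c' w ∈ L w := by
    intro w hw
    by_cases hwa : w = a
    · subst hwa
      rwa [hca]
    · rw [hco w hwa]
      exact hcL w hw
  by_cases hbd : c b = c d
  · by_cases h1 : b1 = a
    · have h2 : b2 ≠ a := fun h' => hbb (h1.trans h'.symm)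
      have hnb' : nb G U b = {v, b2, b1} := by rw [hnb, pair_comm b1 b2]
      refine col_finish hL hcL' hg hnv hnb' hb2 hb1 ?_ ?_ ?_
      · rw [hca, hco b hab.symm]
        exact htb
      · rw [hco b hab.symm, hco d had.symm]
        exact hbd
      · rw [hca, hco b2 h2, ← hb12]
        exact htb1
    · refine col_finish hL hcL' hg hnv hnb hb1 hb2 ?_ ?_ ?_
      · rw [hca, hco b hab.symm]
        exact htb
      · rw [hco b hab.symm, hco d had.symm]
        exact hbd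
      · rw [hca, hco b1 h1]
        exact htb1
  · refine col_rainbow_three hL hcL' hg hnv ?_ ?_ ?_
    · rw [hca, hco b hab.symm]
      exact htb
    · rw [hca, hco d had.symm]
      exact htd
    · rw [hco b hab.symm, hco d had.symm]
      exact hbd

/-- R3 -/
theorem red_three {L : V → Finset κ} {U : Finset V} {v a b d a1 a2 b1 b2 : V}
    (hL : ∀ v, 5 ≤ (L v).card) (hcol : Col G L (U.erase v))
    (hnv : nb G U v = {a, b, d}) (hab : a ≠ b) (had : a ≠ d) (hbd : b ≠ d)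
    (hna : nb G U a = {v, a1, a2}) (hnb : nb G U b = {v, b1, b2})
    (ha1 : a1 ≠ v) (ha2 : a2 ≠ v) (hb1 : b1 ≠ v) (hb2 : b2 ≠ v) (haa : a1 ≠ a2)
    (hbb : b1 ≠ b2) (hw : (nb G U a1).card ≤ 4) : Col G L U := by
  obtain ⟨c, hcL, hc⟩ := hcol
  have ha : a ∈ nb G U v := by rw [hnv]; simp
  have hb : b ∈ nb G U v := by rw [hnv]; simp
  have hd : d ∈ nb G U v := by rw [hnv]; simp
  have hav := mem_nb_ne ha
  have hbv := mem_nb_ne hb
  have hdv := mem_nb_ne hd
  have ha1' : a1 ∈ nb G U a := by rw [hna]; simp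
  have ha2' : a2 ∈ nb G U a := by rw [hna]; simp
  have hb1' : b1 ∈ nb G U b := by rw [hnb]; simp
  have hb2' : b2 ∈ nb G U b := by rw [hnb]; simp
  have haU : a ∈ U.erase v := mem_erase.2 ⟨hav, (mem_nb.1 ha).1⟩
  have hbU : b ∈ U.erase v := mem_erase.2 ⟨hbv, (mem_nb.1 hb).1⟩
  have f1 : c a1 ≠ c a := (hc.proper haU (mem_erase.2 ⟨ha1, (mem_nb.1 ha1').1⟩)
    (mem_nb.1 ha1').2).symm
  have f2 : c a2 ≠ c a := (hc.proper haU (mem_erase.2 ⟨ha2, (mem_nb.1 ha2').1⟩)
    (mem_nb.1 ha2').2).symm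
  have e1 : c b1 ≠ c b := (hc.proper hbU (mem_erase.2 ⟨hb1, (mem_nb.1 hb1').1⟩)
    (mem_nb.1 hb1').2).symm
  have e2 : c b2 ≠ c b := (hc.proper hbU (mem_erase.2 ⟨hb2, (mem_nb.1 hb2').1⟩)
    (mem_nb.1 hb2').2).symm
  by_cases h1 : c a1 = c a2
  swap
  · exact col_free' hL hcL hc hnv hab had hna hnb hb1 hb2 h1 hbb
  by_cases h2 : c b1 = c b2
  swap
  · have hnv' : nb G U v = {b, a, d} := by
      rw [hnv, insert_comm]
    exact col_free' hL hcL hc hnv' hab.symm hbd hnb hna ha1 ha2 h2 haa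
  by_cases h3 : c a ≠ c b ∧ c a ≠ c d ∧ c b ≠ c d
  · exact col_rainbow_three hL hcL hc hnv h3.1 h3.2.1 h3.2.2
  have hQ3 : ({c a, c b, c d} : Finset κ).card ≤ 2 := by
    by_cases h : c a = c b
    · rw [h, insert_eq_of_mem (mem_insert_self _ _)]
      exact card_le_two
    · by_cases h' : c a = c d
      · rw [h', insert_eq_of_mem (by simp)]
        exact card_le_two
      · by_cases h'' : c b = c d
        · rw [h'', insert_eq_of_mem (mem_singleton_self _)]
          exact card_le_two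
        · exact absurd ⟨h, h', h''⟩ h3
  set Q : Finset κ := insert (c a1) (insert (c b1) {c a, c b, c d}) with hQ
  have hQ4 : Q.card ≤ 4 := by
    have i1 := card_insert_le (c a1) (insert (c b1) ({c a, c b, c d} : Finset κ))
    have i2 := card_insert_le (c b1) ({c a, c b, c d} : Finset κ)
    rw [← hQ] at i1
    omega
  have qa1 : c a1 ∈ Q := by simp [hQ]
  have qb1 : c b1 ∈ Q := by simp [hQ]
  have qa : c a ∈ Q := by simp [hQ]
  have qb : c b ∈ Q := by simp [hQ]
  have qd : c d ∈ Q := by simp [hQ]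
  obtain ⟨y, hy, hyQ⟩ := exists_not (A := L v) (B := Q) (by have := hL v; omega)
  have hny : ∀ q ∈ Q, q ≠ y := fun q hq h => hyQ (h ▸ hq)
  obtain ⟨c', hcv, hco⟩ := exists_update c v y
  by_cases hg : Good G U c'
  · exact ⟨c', lists_update hcL hy hcv hco, hg⟩
  unfold Good at hg
  push Not at hg
  obtain ⟨S, T, hT, hB⟩ := hg
  have hvT : v ∈ T := hc.hit1 (c' := c') (fun w _ hw => hco w hw) hT hB
  have hyS := hB.col v hvT
  obtain ⟨hS, haT, hbT, hdT, ha1T, hb1T⟩ := hB.all hT hvT hnv hna hnb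
    (by rw [hcv, hco a hav]; exact hny _ qa) (by rw [hcv, hco b hbv]; exact hny _ qb)
    (by rw [hcv, hco d hdv]; exact hny _ qd) (by rw [hcv, hco a1 ha1]; exact hny _ qa1)
    (by rw [hcv, hco a2 ha2, ← h1]; exact hny _ qa1)
    (by rw [hcv, hco b1 hb1]; exact hny _ qb1)
    (by rw [hcv, hco b2 hb2, ← h2]; exact hny _ qb1)
    (by rw [hco a1 ha1, hco a hav]; exact f1) (by rw [hco a2 ha2, hco a hav]; exact f2)
    (by rw [hco b1 hb1, hco b hbv]; exact e1) (by rw [hco b2 hb2, hco b hbv]; exact e2)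
  have hsub : insert y Q ⊆ S := by
    intro q hq
    simp only [hQ, mem_insert, mem_singleton] at hq
    rcases hq with rfl | rfl | rfl | rfl | rfl | rfl
    · rw [hcv] at hyS
      exact hyS
    · rw [← hco a1 ha1]; exact hB.col _ ha1T
    · rw [← hco b1 hb1]; exact hB.col _ hb1T
    · rw [← hco a hav]; exact hB.col _ haT
    · rw [← hco b hbv]; exact hB.col _ hbT
    · rw [← hco d hdv]; exact hB.col _ hdT
  have hQ2 : 2 ≤ Q.card := by
    have i1 : ({c a1, c a} : Finset κ) ⊆ Q := by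
      intro q hq
      simp only [mem_insert, mem_singleton] at hq
      rcases hq with rfl | rfl
      · exact qa1
      · exact qa
    have i2 := card_le_card i1
    rw [card_pair f1] at i2
    exact i2
  have hcard : (insert y Q).card = Q.card + 1 := card_insert_of_notMem hyQ
  have hSe : insert y Q = S := eq_of_subset_of_card_le hsub (by omega)
  have hcardS : (insert y Q).card = 3 := by rw [hSe]; exact hS
  by_cases hex : ∃ t ∈ L a, t ∉ Q ∧ ∀ w ∈ nb G U a1, w ≠ v → w ≠ a → c w ≠ t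
  · obtain ⟨t, ht, htQ, hta⟩ := hex
    have hnt : ∀ q ∈ Q, t ≠ q := fun q hq h => htQ (h ▸ hq)
    exact col_step_four hL hcL hc hnv hab had hna hnb hb1 hb2 h1 h2 hbb ht (hnt _ qb)
      (hnt _ qd) (hnt _ qa1) (hnt _ qb1) hta
  · exfalso
    push Not at hex
    have hsub2 : L a \ insert y Q ⊆ ((nb G U a1) \ (nb G T a1)).image c := by
      intro t ht
      rw [mem_sdiff, mem_insert, not_or] at ht
      obtain ⟨htL, hty, htQ⟩ := ht
      obtain ⟨w, hw1, hwv, hwa, hcw⟩ := hex t htL htQ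
      refine mem_image.2 ⟨w, mem_sdiff.2 ⟨hw1, fun hw2 => ?_⟩, hcw⟩
      have h4 := hB.col w (mem_nb.1 hw2).1
      rw [hco w hwv, hcw, ← hSe, mem_insert] at h4
      rcases h4 with h4 | h4
      · exact hty h4
      · exact htQ h4
    have i1 := card_le_card hsub2
    have i2 : (((nb G U a1) \ (nb G T a1)).image c).card
      ≤ ((nb G U a1) \ (nb G T a1)).card := card_image_le
    have i3 := card_sdiff_add_card_eq_card (nb_mono (G := G) hT a1)
    have i4 := hB.deg a1 ha1T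
    have i5 := le_card_sdiff (insert y Q) (L a)
    have i6 := hL a
    omega

end Pool.Agent.Helper3.DG
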